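import Pool.Agent.N436.DF.Stm3
import Pool.Agent.N749.DF.PendZ
import Pool.Agent.N878.DF.Addm

/-! Project DF, third batch, leaf DH/10: potential 5, two real boundary edges (helper107). -/

namespace Pool.Agent.N107.DF

open Finset Pool.Agent.N436.DF

section aux
variable {V : Type} [DecidableEq V]

lemma sv_nonneg {H : Hub V} (ok : Ok P13 H) (f : V → Bool) {s : V → V → ℤ}
    (hs : ∀ x z, 0 ≤ s x z) (x z : V) : 0 ≤ sv H f s x z := by
  have h1 := ok.m_nn x z
  have h2 := hs x z
  have h3 : 0 ≤ min (H.m x z) (s x z) := le_min h1 h2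
  unfold sv
  rcases ok.r01 x z with h | h <;> rw [h] <;> split_ifs <;> linarith

lemma sum_one {X C : Finset V} {g : V → V → ℤ} (hg : ∀ x z, 0 ≤ g x z) {v w : V} (hv : v ∈ X)
    (hw : w ∈ C) : g v w ≤ ∑ x ∈ X, ∑ z ∈ C, g x z := by
  refine le_trans (single_le_sum (f := fun z => g v z) (fun z _ => hg v z) hw) ?_
  exact single_le_sum (f := fun x => ∑ z ∈ C, g x z) (fun x _ => sum_nonneg fun z _ => hg x z) hv

lemma sum_two {X C : Finset V} {g : V → V → ℤ} (hg : ∀ x z, 0 ≤ g x z) {v w v' w' : V}
    (hv : v ∈ X) (hw : w ∈ C) (hv' : v' ∈ X) (hw' : w' ∈ C) (hne : (v, w) ≠ (v', w')) :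
    g v w + g v' w' ≤ ∑ x ∈ X, ∑ z ∈ C, g x z := by
  rw [← sum_product']
  have h := sum_pair (f := fun t : V × V => g t.1 t.2) hne
  refine le_trans (le_of_eq h.symm) ?_
  refine sum_le_sum_of_subset_of_nonneg ?_ fun t _ _ => hg t.1 t.2
  intro t ht
  rcases mem_insert.1 ht with rfl | ht
  · exact mem_product.2 ⟨hv, hw⟩
  · rw [mem_singleton.1 ht]
    exact mem_product.2 ⟨hv', hw'⟩

end aux

theorem rb6b (hb : S3_base) (hs : S3_state) (hk : S3_kill) (hP : S3_killP) (hR : S3_killR) :
    S3_rb6b := by
  intro V _ H S X v w v' w' mc h5 hXS hX hmax hv hw hvw hv' hw' hvw' hne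
  have hwS := (mem_sdiff.1 hw).1
  have hwX := (mem_sdiff.1 hw).2
  have hwS' := (mem_sdiff.1 hw').1
  have hwX' := (mem_sdiff.1 hw').2
  obtain ⟨-, hun, -, hsing, hmc⟩ := hb V H mc.ok
  obtain ⟨hm2, hm3⟩ := hmc S mc
  have hXne : X.Nonempty := ⟨v, hv⟩
  have hXS' : X ≠ S := fun h => hwX (h ▸ hwS)
  have hSne : S.Nonempty := ⟨w, hwS⟩
  have hS2 : -2 ≤ hp H S := hm2 S subset_rfl hSne
  -- the ends `w`, `w'` are different
  have hww : w ≠ w' := by
    rintro rfl
    have hvv : v ≠ v' := fun h => hne (by rw [h])
    have hdis : Disjoint X {w} := disjoint_singleton_right.2 hwX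
    have hu := hun X {w} hdis
    have hc1 := mc.ok.c1_le w
    have hc2 := mc.ok.c2_le w
    have hj : P13.j = 1 := rfl
    have hk3 : P13.k = 3 := rfl
    rw [hj] at hc1
    rw [hk3] at hc2
    have hsw := hsing w
    have hrr : rr H X {w} = ∑ x ∈ X, H.r x w := by
      unfold rr
      exact sum_congr rfl fun x _ => sum_singleton _ _
    have hmm : mm H X {w} = ∑ x ∈ X, H.m x w := by
      unfold mm
      exact sum_congr rfl fun x _ => sum_singleton _ _
    have hrn : ∀ x, 0 ≤ H.r x w := fun x => by
      rcases mc.ok.r01 x w with h | h <;> rw [h] <;> norm_num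
    have hr2 : 2 ≤ ∑ x ∈ X, H.r x w := by
      have h1 := sum_pair (f := fun x => H.r x w) hvv
      have h2 : ∑ x ∈ ({v, v'} : Finset V), H.r x w ≤ ∑ x ∈ X, H.r x w := by
        refine sum_le_sum_of_subset_of_nonneg ?_ fun x _ _ => hrn x
        intro x hx
        rcases mem_insert.1 hx with rfl | hx
        · exact hv
        · rw [mem_singleton.1 hx]; exact hv'
      rw [h1, hvw, hvw'] at h2
      linarith
    have hmn : 0 ≤ ∑ x ∈ X, H.m x w := sum_nonneg fun x _ => mc.ok.m_nn x w
    have hXw : X ∪ {w} ⊆ S := union_subset hXS (singleton_subset_iff.2 hwS)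
    have hSe : X ∪ {w} = S := by
      by_contra hcon
      have h3 := (hm3 _ hXw (hXne.mono subset_union_left) hcon).2
      rw [hu, hX, hrr, hmm, hsw] at h3
      linarith
    rw [hSe, hX, hrr, hmm, hsw] at hu
    have hr : ∑ x ∈ X, H.r x w = 2 := by
      have : ∑ x ∈ X, H.r x w < 3 := by
        by_contra hcon
        push Not at hcon
        linarith
      omega
    have hmz : ∑ x ∈ X, H.m x w = 0 := by
      rw [hr] at hu
      by_contra hcon
      have : 1 ≤ ∑ x ∈ X, H.m x w := by omega
      linarith
    have hct : H.c true w = 1 := by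
      by_contra hcon
      have : H.c true w ≤ 0 := by omega
      rw [hr, hmz] at hu
      linarith
    have hcf : 1 ≤ H.c false w := by
      rw [hr, hmz, hct] at hu
      linarith
    have hm0 : ∀ x ∈ X, H.m x w = 0 := fun x hx =>
      (sum_eq_zero_iff_of_nonneg fun x _ => mc.ok.m_nn x w).1 hmz x hx
    have hr0 : ∀ x ∈ X, x ≠ v → x ≠ v' → H.r x w = 0 := by
      intro x hx h1 h2
      by_contra hcon
      have hx1 : H.r x w = 1 := (mc.ok.r01 x w).resolve_left hcon
      have h3 : ∑ y ∈ ({x, v, v'} : Finset V), H.r y w ≤ ∑ y ∈ X, H.r y w := by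
        refine sum_le_sum_of_subset_of_nonneg ?_ fun y _ _ => hrn y
        intro y hy
        rcases mem_insert.1 hy with rfl | hy
        · exact hx
        rcases mem_insert.1 hy with rfl | hy
        · exact hv
        · rw [mem_singleton.1 hy]; exact hv'
      rw [sum_insert (by simp [h1, h2]), sum_pair hvv, hx1, hvw, hvw', hr] at h3
      norm_num at h3
    have hmem : ∀ x ∈ S, x ∈ X ∨ x = w := by
      intro x hx
      rw [← hSe] at hx
      rcases mem_union.1 hx with h | h
      · exact Or.inl h
      · exact Or.inr (mem_singleton.1 h)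
    refine Pool.Agent.N749.DF.z Pool.Agent.N878.DF.addm_ok V P13 H S w v v' mc hwS (hXS hv) (hXS hv')
      hvv (by rw [mc.ok.rsymm]; exact hvw) (by rw [mc.ok.rsymm]; exact hvw') ?_ ?_
      (by rw [hct]) hcf
    · intro x hx h1 h2
      rcases hmem x hx with h | rfl
      · rw [mc.ok.rsymm]
        exact hr0 x h h1 h2
      · exact mc.ok.r0 _
    · intro x hx
      rcases hmem x hx with h | rfl
      · rw [mc.ok.msymm]
        exact hm0 x h
      · exact mc.ok.m0 _
  -- the colouring of `X`
  obtain ⟨f, p, hcol, hload⟩ := hs V H S X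
    (fun i x => if i = false ∧ (x = v ∨ x = v') then 1 else 0) mc hXS hXS'
    (fun i x => by split_ifs <;> norm_num) (by
      intro C hC hCne
      have hCS := hC.trans hXS
      have hle : cost (fun i x => if i = false ∧ (x = v ∨ x = v') then (1 : ℤ) else 0) C ≤
          if v ∈ C ∨ v' ∈ C then 6 else 0 := by
        unfold cost
        have h1 : ∀ z ∈ C, (5 * (if true = false ∧ (z = v ∨ z = v') then (1 : ℤ) else 0) +
            3 * (if false = false ∧ (z = v ∨ z = v') then (1 : ℤ) else 0)) =
            if z = v ∨ z = v' then 3 else 0 := by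
          intro z _
          by_cases h : z = v ∨ z = v' <;> simp [h]
        rw [sum_congr rfl h1, ← sum_filter]
        rw [sum_const, nsmul_eq_mul]
        have hsub : C.filter (fun z => z = v ∨ z = v') ⊆ {v, v'} := by
          intro z hz
          rcases (mem_filter.1 hz).2 with h | h <;> simp [h]
        have hcard : (C.filter (fun z => z = v ∨ z = v')).card ≤ 2 :=
          (card_le_card hsub).trans card_le_two
        split_ifs with h
        · have : ((C.filter (fun z => z = v ∨ z = v')).card : ℤ) ≤ 2 := by exact_mod_cast hcard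
          linarith
        · have h0 : C.filter (fun z => z = v ∨ z = v') = ∅ := by
            rw [filter_eq_empty_iff]
            rintro z hz (rfl | rfl)
            · exact h (Or.inl hz)
            · exact h (Or.inr hz)
          rw [h0]
          simp
      have h2 := hm2 C hCS hCne
      by_cases h : v ∈ C ∨ v' ∈ C
      · rw [if_pos h] at hle
        have hRB : RB H S C := by
          rcases h with h | h
          · exact ⟨v, h, w, mem_sdiff.2 ⟨hwS, fun hc => hwX (hC hc)⟩, hvw⟩
          · exact ⟨v', h, w', mem_sdiff.2 ⟨hwS', fun hc => hwX' (hC hc)⟩, hvw'⟩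
        have := h5 C hCS hRB
        linarith
      · rw [if_neg h] at hle
        linarith)
  -- both ends in `X` have the colour 1
  have colour : ∀ x z : V, x ∈ X → z ∈ S \ X → H.r x z = 1 → (x = v ∨ x = v') → f x = true := by
    intro x z hx hz hr hxx
    by_contra hcon
    have hfx : f x = false := by simpa using hcon
    have hsn : ∀ a b : V, (0 : ℤ) ≤ (fun a b => if a = x ∧ b = z then (1 : ℤ) else 0) a b :=
      fun a b => by dsimp only; split_ifs <;> norm_num
    obtain ⟨C, hC, hCne, hCle⟩ := hk V H S X f p (fun a b => if a = x ∧ b = z then 1 else 0) mc hXS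
      hXne hcol hsn (by
        intro a ha
        have h1 := (hload a ha).1
        by_cases hax : a = x
        · subst hax
          have h2 : ∑ b ∈ S \ X, (if a = a ∧ b = z then (1 : ℤ) else 0) = 1 := by
            simp only [true_and]
            rw [sum_ite_eq' (S \ X) z (fun _ => (1 : ℤ)), if_pos hz]
          rw [h2]
          rw [hfx] at h1 ⊢
          simp only [true_and, if_pos hxx] at h1
          exact h1
        · have h2 : ∑ b ∈ S \ X, (if a = x ∧ b = z then (1 : ℤ) else 0) = 0 :=
            sum_eq_zero fun b _ => if_neg fun h => hax h.1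
          rw [h2]
          have h3 : (0 : ℤ) ≤ if f a = false ∧ (a = v ∨ a = v') then 1 else 0 := by
            split_ifs <;> norm_num
          linarith)
    have hnn := sv_nonneg mc.ok f hsn
    have hsum0 : 0 ≤ ∑ a ∈ X, ∑ b ∈ C, sv H f (fun a b => if a = x ∧ b = z then 1 else 0) a b :=
      sum_nonneg fun a _ => sum_nonneg fun b _ => hnn a b
    have hXC : X ∪ C ⊆ S := union_subset hXS (hC.trans sdiff_subset)
    by_cases hS : X ∪ C = S
    · have hzC : z ∈ C := by
        have : z ∈ X ∪ C := hS ▸ (mem_sdiff.1 hz).1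
        exact (mem_union.1 this).resolve_left (mem_sdiff.1 hz).2
      have h9 : 9 ≤ sv H f (fun a b => if a = x ∧ b = z then 1 else 0) x z := by
        unfold sv
        have hmn := mc.ok.m_nn x z
        have h3 : 0 ≤ min (H.m x z) 1 := le_min hmn (by norm_num)
        simp only [hfx, hr]
        norm_num
        linarith
      have := sum_one hnn hx hzC
      rw [hS, hX] at hCle
      linarith
    · have := (hm3 _ hXC (hXne.mono subset_union_left) hS).2
      linarith
  have hfv : f v = true := colour v w hv hw hvw (Or.inl rfl)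
  have hfv' : f v' = true := colour v' w' hv' hw' hvw' (Or.inr rfl)
  -- the service is zero
  have hz0 : ∀ a b : V, (0 : ℤ) ≤ (fun _ _ : V => (0 : ℤ)) a b := fun _ _ => le_rfl
  have hcap0 : ∀ a ∈ X, load H X f p a + ∑ b ∈ S \ X, (fun _ _ : V => (0 : ℤ)) a b ≤ H.c (f a) a := by
    intro a ha
    have h1 := (hload a ha).1
    have h3 : (0 : ℤ) ≤ if f a = false ∧ (a = v ∨ a = v') then 1 else 0 := by
      split_ifs <;> norm_num
    simp only [sum_const_zero]
    linarith
  have hnn := sv_nonneg mc.ok f hz0
  have hsv : ∀ x z : V, H.r x z = 1 → f x = true → 2 ≤ sv H f (fun _ _ => 0) x z := by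
    intro x z hr hf
    unfold sv
    have hmn := mc.ok.m_nn x z
    have h3 : 0 ≤ min (H.m x z) 0 := le_min hmn le_rfl
    simp only [hf, hr]
    norm_num
    linarith
  -- the three kinds of obstacles
  have key : ∀ (C : Finset V) (e : ℤ), C ⊆ S \ X → C.Nonempty →
      (C = S \ X → 1 ≤ e) → (-3 ≤ e) →
      2 < hp H (X ∪ C) + ∑ x ∈ X, ∑ z ∈ C, sv H f (fun _ _ => 0) x z + e := by
    intro C e hC hCne he1 he3
    have hXC : X ∪ C ⊆ S := union_subset hXS (hC.trans sdiff_subset)
    have hsum0 : 0 ≤ ∑ a ∈ X, ∑ b ∈ C, sv H f (fun _ _ => 0) a b :=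
      sum_nonneg fun a _ => sum_nonneg fun b _ => hnn a b
    by_cases hRB : RB H S (X ∪ C)
    · have hss : X ⊂ X ∪ C := by
        refine ⟨subset_union_left, fun h => ?_⟩
        obtain ⟨c, hc⟩ := hCne
        exact (mem_sdiff.1 (hC hc)).2 (h (mem_union_right _ hc))
      have h6 := hmax _ hss hXC hRB
      linarith
    · have hwC : w ∈ C := by
        by_contra hcon
        exact hRB ⟨v, mem_union_left _ hv, w, mem_sdiff.2 ⟨hwS, fun h =>
          (mem_union.1 h).elim hwX hcon⟩, hvw⟩
      have hwC' : w' ∈ C := by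
        by_contra hcon
        exact hRB ⟨v', mem_union_left _ hv', w', mem_sdiff.2 ⟨hwS', fun h =>
          (mem_union.1 h).elim hwX' hcon⟩, hvw'⟩
      have h4 := sum_two hnn hv hwC hv' hwC' hne
      have h5' := hsv v w hvw hfv
      have h6' := hsv v' w' hvw' hfv'
      by_cases hS : X ∪ C = S
      · have hCB : C = S \ X := by
          refine subset_antisymm hC fun z hz => ?_
          have : z ∈ X ∪ C := hS ▸ (mem_sdiff.1 hz).1
          exact (mem_union.1 this).resolve_left (mem_sdiff.1 hz).2
        have := he1 hCB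
        rw [hS]
        linarith
      · have := (hm3 _ hXC (hXne.mono subset_union_left) hS).2
        linarith
  -- `w` has another neighbour outside `X`
  have hnb : ∃ y ∈ S \ X, y ≠ w ∧ (H.r w y = 1 ∨ 1 ≤ H.m w y) := by
    by_contra hcon
    push Not at hcon
    have hr0 : ∀ y ∈ (S \ X).erase w, H.r y w = 0 := by
      intro y hy
      have h := hcon y (mem_of_mem_erase hy) (ne_of_mem_erase hy)
      rw [mc.ok.rsymm]
      exact (mc.ok.r01 w y).resolve_right h.1
    have hm0 : ∀ y ∈ (S \ X).erase w, H.m y w = 0 := by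
      intro y hy
      have h := hcon y (mem_of_mem_erase hy) (ne_of_mem_erase hy)
      rw [mc.ok.msymm]
      have := mc.ok.m_nn w y
      omega
    have hd1 : Disjoint X {w} := disjoint_singleton_right.2 hwX
    have hd2 : Disjoint (S.erase w) {w} := disjoint_singleton_right.2 (notMem_erase w S)
    have hu1 := hun X {w} hd1
    have hu2 := hun (S.erase w) {w} hd2
    have hSe : S.erase w ∪ {w} = S := by
      rw [union_comm, ← insert_eq, insert_erase hwS]
    have hsplit : S.erase w = X ∪ (S \ X).erase w := by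
      ext z
      simp only [mem_erase, mem_union, mem_sdiff]
      constructor
      · rintro ⟨h1, h2⟩
        by_cases hz : z ∈ X
        · exact Or.inl hz
        · exact Or.inr ⟨h1, h2, hz⟩
      · rintro (h | ⟨h1, h2, -⟩)
        · exact ⟨fun e => hwX (e ▸ h), hXS h⟩
        · exact ⟨h1, h2⟩
    have hd3 : Disjoint X ((S \ X).erase w) :=
      disjoint_left.2 fun z hz hz' => (mem_sdiff.1 (mem_of_mem_erase hz')).2 hz
    have hrr : rr H (S.erase w) {w} = rr H X {w} := by
      unfold rr
      simp only [sum_singleton]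
      rw [hsplit, sum_union hd3, sum_eq_zero hr0, add_zero]
    have hmm : mm H (S.erase w) {w} = mm H X {w} := by
      unfold mm
      simp only [sum_singleton]
      rw [hsplit, sum_union hd3, sum_eq_zero hm0, add_zero]
    rw [hSe, hrr, hmm] at hu2
    have h1 := (hm3 (S.erase w) (erase_subset _ _) ⟨v, mem_erase.2 ⟨fun e => hwX (e ▸ hv), hXS hv⟩⟩
      (fun e => notMem_erase w S (e.symm ▸ hwS))).1
    have h2 := (hm3 (X ∪ {w}) (union_subset hXS (singleton_subset_iff.2 hwS))
      (hXne.mono subset_union_left) (fun e => by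
        have : w' ∈ X ∪ {w} := e.symm ▸ hwS'
        rcases mem_union.1 this with h | h
        · exact hwX' h
        · exact hww (mem_singleton.1 h).symm)).2
    linarith
  obtain ⟨y, hy, hyw, hyr | hym⟩ := hnb
  · -- a real edge `w y`
    obtain ⟨C, hC, hCne, hCle⟩ := hR V H S X f p (fun _ _ => 0) v w y mc hXS hcol hz0 hcap0 hv hw
      hvw hfv rfl hy hyr
    have h2 := key C (if w ∈ C then (if y ∈ C then 6 else -3) else (if y ∈ C then -3 else 0)) hC
      hCne (by
        intro hCB
        rw [hCB, if_pos hw, if_pos hy]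
        norm_num) (by split_ifs <;> norm_num)
    rw [hX] at hCle
    linarith
  · -- a pair unit `w y`
    obtain ⟨C, hC, hCne, hCle⟩ := hP V H S X f p (fun _ _ => 0) v w y mc hXS hcol hz0 hcap0 hv hw
      hvw hfv rfl hy hyw hym
    have h2 := key C (if w ∈ C then (if y ∈ C then 2 else -3) else 0) hC hCne (by
        intro hCB
        rw [hCB, if_pos hw, if_pos hy]
        norm_num) (by split_ifs <;> norm_num)
    rw [hX] at hCle
    linarith

end Pool.Agent.N107.DF
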